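import Mathlib

set_option autoImplicit false

/-! # Trivalent graphs with a given automorphism group: the graph -/

namespace Pool.Agent.N630.Tri

/-- the vertices of one cell: the head (ten vertices) and two rails of `k + 1` ports -/
abbrev W (k : ℕ) := Fin 10 ⊕ (Bool × Fin (k + 1))

/-- the edges of the head -/
def MA (i j : Fin 10) : Bool :=
  match i.val, j.val with
  | 0, 2 => true | 0, 3 => true
  | 1, 4 => true | 1, 5 => true
  | 2, 0 => true | 2, 4 => true | 2, 6 => true
  | 3, 0 => true | 3, 7 => true | 3, 8 => true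
  | 4, 1 => true | 4, 2 => true | 4, 6 => true
  | 5, 1 => true | 5, 7 => true | 5, 9 => true
  | 6, 2 => true | 6, 4 => true | 6, 8 => true
  | 7, 3 => true | 7, 5 => true | 7, 9 => true
  | 8, 3 => true | 8, 6 => true | 8, 9 => true
  | 9, 5 => true | 9, 7 => true | 9, 8 => true
  | _, _ => false

/-- the end of the head where the rail `b` starts -/
def en (b : Bool) : Fin 10 := if b then 1 else 0

/-- the edges inside a cell -/
def C {k : ℕ} : W k → W k → Prop
  | .inl i, .inl j => MA i j = true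
  | .inl i, .inr q => (q.2 : ℕ) = 0 ∧ i = en q.1
  | .inr p, .inl j => (p.2 : ℕ) = 0 ∧ j = en p.1
  | .inr p, .inr q => (p.1 = q.1 ∧ ((p.2 : ℕ) + 1 = q.2 ∨ (q.2 : ℕ) + 1 = p.2)) ∨
      (p.1 ≠ q.1 ∧ p.2 = q.2 ∧ (p.2 : ℕ) = k)

lemma MA_symm (i j : Fin 10) : MA i j = MA j i := by
  revert i j; decide

lemma C_symm {k : ℕ} {u v : W k} (h : C u v) : C v u := by
  rcases u with i | p <;> rcases v with j | q
  · simp only [C] at h ⊢; rw [MA_symm]; exact h
  · exact h
  · exact h
  · simp only [C] at h ⊢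
    rcases h with ⟨h1, h2⟩ | ⟨h1, h2, h3⟩
    · exact Or.inl ⟨h1.symm, h2.symm⟩
    · exact Or.inr ⟨h1.symm, h2.symm, by rw [← h2]; exact h3⟩

lemma MA_irrefl (i : Fin 10) : MA i i = false := by
  revert i; decide

lemma C_irrefl {k : ℕ} (u : W k) : ¬ C u u := by
  rcases u with i | p
  · simp [C, MA_irrefl]
  · simp [C]

variable {G : Type*} [Group G]

/-- the edges between the cells -/
def Ex {k : ℕ} (s : Fin (k + 1) → G) (p q : G × W k) : Prop :=
  ∃ j, p.2 = .inr (false, j) ∧ q.2 = .inr (true, j) ∧ q.1 = p.1 * s j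

/-- the graph -/
def X {k : ℕ} (s : Fin (k + 1) → G) : SimpleGraph (G × W k) where
  Adj p q := (p.1 = q.1 ∧ C p.2 q.2) ∨ Ex s p q ∨ Ex s q p
  symm := ⟨by
    rintro p q (⟨h1, h2⟩ | h | h)
    · exact Or.inl ⟨h1.symm, C_symm h2⟩
    · exact Or.inr (Or.inr h)
    · exact Or.inr (Or.inl h)⟩
  loopless := ⟨by
    rintro p (⟨_, h⟩ | ⟨j, h1, h2, _⟩ | ⟨j, h1, h2, _⟩)
    · exact C_irrefl _ h
    · rw [h1] at h2; simp at h2
    · rw [h1] at h2; simp at h2⟩

variable {k : ℕ} {s : Fin (k + 1) → G}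

lemma adj_def {p q : G × W k} : (X s).Adj p q ↔ (p.1 = q.1 ∧ C p.2 q.2) ∨ Ex s p q ∨ Ex s q p := Iff.rfl

lemma adj_inl {x : G} {i : Fin 10} {q : G × W k} :
    (X s).Adj (x, .inl i) q ↔ (∃ j, MA i j = true ∧ q = (x, .inl j)) ∨
      (∃ b, i = en b ∧ q = (x, .inr (b, 0))) := by
  obtain ⟨y, v⟩ := q
  rw [adj_def]
  constructor
  · rintro (⟨h1, h2⟩ | ⟨j, h1, _, _⟩ | ⟨j, _, h1, _⟩)
    · simp only at h1; subst h1
      rcases v with j | ⟨b, j⟩
      · exact Or.inl ⟨j, h2, rfl⟩
      · simp only [C] at h2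
        refine Or.inr ⟨b, h2.2, ?_⟩
        have : j = 0 := Fin.ext h2.1
        rw [this]
    · simp at h1
    · simp at h1
  · rintro (⟨j, h1, h2⟩ | ⟨b, h1, h2⟩)
    · obtain ⟨rfl, rfl⟩ := Prod.mk.inj h2
      exact Or.inl ⟨rfl, h1⟩
    · obtain ⟨rfl, rfl⟩ := Prod.mk.inj h2
      exact Or.inl ⟨rfl, by simp [C, h1]⟩

/-- the lower neighbour -/
def lo (x : G) (b : Bool) (j : Fin (k + 1)) : G × W k :=
  if h : (j : ℕ) = 0 then (x, .inl (en b)) else (x, .inr (b, ⟨j - 1, by omega⟩))

/-- the upper neighbour -/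
def up (x : G) (b : Bool) (j : Fin (k + 1)) : G × W k :=
  if h : (j : ℕ) = k then (x, .inr (!b, j)) else (x, .inr (b, ⟨j + 1, by omega⟩))

/-- the outer neighbour -/
def ou (s : Fin (k + 1) → G) (x : G) (b : Bool) (j : Fin (k + 1)) : G × W k :=
  (if b then x * (s j)⁻¹ else x * s j, .inr (!b, j))

lemma adj_inr {x : G} {b : Bool} {j : Fin (k + 1)} {q : G × W k} :
    (X s).Adj (x, .inr (b, j)) q ↔ q = lo x b j ∨ q = up x b j ∨ q = ou s x b j := by
  obtain ⟨y, v⟩ := q
  rw [adj_def]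
  constructor
  · rintro (⟨h1, h2⟩ | ⟨j', h1, h2, h3⟩ | ⟨j', h2, h1, h3⟩)
    · simp only at h1; subst h1
      rcases v with i | ⟨b', j'⟩
      · simp only [C] at h2
        left
        simp [lo, h2.1, h2.2]
      · simp only [C] at h2
        rcases h2 with ⟨h2, h3 | h3⟩ | ⟨h2, h3, h4⟩
        · subst h2
          right; left
          have hj : (j : ℕ) ≠ k := by have := j'.isLt; omega
          simp only [up, hj, dite_false, Prod.mk.injEq, true_and, Sum.inr.injEq]
          exact Fin.ext h3.symm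
        · subst h2
          left
          have hj : (j : ℕ) ≠ 0 := by omega
          simp only [lo, hj, dite_false, Prod.mk.injEq, true_and, Sum.inr.injEq]
          exact Fin.ext (by simp; omega)
        · right; left
          simp only [up, h4, dite_true, Prod.mk.injEq, true_and, Sum.inr.injEq]
          refine ⟨?_, h3.symm⟩
          revert h2; cases b <;> cases b' <;> simp
    · simp only [Sum.inr.injEq, Prod.mk.injEq] at h1 h2 h3
      obtain ⟨rfl, rfl⟩ := h1
      right; right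
      simp [ou, h2, h3]
    · simp only [Sum.inr.injEq, Prod.mk.injEq] at h1 h2 h3
      obtain ⟨rfl, rfl⟩ := h1
      right; right
      simp only [ou, if_true, Bool.not_true, Prod.mk.injEq]
      exact ⟨by rw [h3]; group, h2⟩
  · rintro (h | h | h)
    · left
      by_cases hj : (j : ℕ) = 0
      · simp only [lo, hj, dite_true, Prod.mk.injEq] at h
        obtain ⟨rfl, rfl⟩ := h
        exact ⟨rfl, hj, rfl⟩
      · simp only [lo, hj, dite_false, Prod.mk.injEq] at h
        obtain ⟨rfl, rfl⟩ := h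
        refine ⟨rfl, Or.inl ⟨rfl, Or.inr ?_⟩⟩
        simp; omega
    · left
      by_cases hj : (j : ℕ) = k
      · simp only [up, hj, dite_true, Prod.mk.injEq] at h
        obtain ⟨rfl, rfl⟩ := h
        exact ⟨rfl, Or.inr ⟨by cases b <;> simp, rfl, hj⟩⟩
      · simp only [up, hj, dite_false, Prod.mk.injEq] at h
        obtain ⟨rfl, rfl⟩ := h
        exact ⟨rfl, Or.inl ⟨rfl, Or.inl rfl⟩⟩
    · right
      cases b with
      | false =>
        left
        simp only [ou, Bool.false_eq_true, if_false, Bool.not_false, Prod.mk.injEq] at h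
        exact ⟨j, rfl, h.2, h.1⟩
      | true =>
        right
        simp only [ou, if_true, Bool.not_true, Prod.mk.injEq] at h
        exact ⟨j, h.2, rfl, by simp [h.1]⟩

/-- three distinct neighbours -/
lemma ncard_three {V : Type*} {Y : SimpleGraph V} {v a b c : V} (hab : a ≠ b) (hac : a ≠ c) (hbc : b ≠ c)
    (h : ∀ w, Y.Adj v w ↔ w = a ∨ w = b ∨ w = c) : (Y.neighborSet v).ncard = 3 := by
  have : Y.neighborSet v = {a, b, c} := by
    ext w
    rw [SimpleGraph.mem_neighborSet, h]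
    simp
  rw [this]
  exact Set.ncard_eq_three.2 ⟨a, b, c, hab, hac, hbc, rfl⟩

lemma lo_ne_up {x : G} {b : Bool} {j : Fin (k + 1)} : (lo x b j : G × W k) ≠ up x b j := by
  unfold lo up
  by_cases h1 : (j : ℕ) = 0 <;> by_cases h2 : (j : ℕ) = k
  · rw [dif_pos h1, dif_pos h2]; simp
  · rw [dif_pos h1, dif_neg h2]; simp
  · rw [dif_neg h1, dif_pos h2]
    intro h
    simp only [Prod.mk.injEq, Sum.inr.injEq] at h
    cases b <;> simp at h
  · rw [dif_neg h1, dif_neg h2]
    intro h
    simp only [Prod.mk.injEq, Sum.inr.injEq, Fin.mk.injEq] at h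
    omega

lemma lo_ne_ou {x : G} {b : Bool} {j : Fin (k + 1)} : (lo x b j : G × W k) ≠ ou s x b j := by
  unfold lo ou
  by_cases h1 : (j : ℕ) = 0
  · simp [h1]
  · simp only [h1, dite_false, ne_eq, Prod.mk.injEq, Sum.inr.injEq, not_and]
    intro _ h; cases b <;> simp at h

lemma up_ne_ou (hs : ∀ j, s j ≠ 1) {x : G} {b : Bool} {j : Fin (k + 1)} :
    (up x b j : G × W k) ≠ ou s x b j := by
  unfold up ou
  by_cases h2 : (j : ℕ) = k
  · simp only [h2, dite_true, ne_eq, Prod.mk.injEq, and_true]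
    intro h
    cases b with
    | false => simp at h; exact hs j h
    | true => simp at h; exact hs j h
  · simp only [h2, dite_false, ne_eq, Prod.mk.injEq, Sum.inr.injEq, not_and]
    intro _ h; cases b <;> simp at h

theorem regular (hs : ∀ j, s j ≠ 1) (v : G × W k) : ((X s).neighborSet v).ncard = 3 := by
  obtain ⟨x, i | ⟨b, j⟩⟩ := v
  · have key : ∀ i : Fin 10, (∃ a b c : Fin 10, a ≠ b ∧ a ≠ c ∧ b ≠ c ∧ (∀ j, MA i j = true ↔ j = a ∨ j = b ∨ j = c) ∧
        i ≠ en false ∧ i ≠ en true) ∨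
        (∃ a b : Fin 10, ∃ r : Bool, a ≠ b ∧ (∀ j, MA i j = true ↔ j = a ∨ j = b) ∧ ∀ b', i = en b' ↔ b' = r) := by
      decide
    rcases key i with ⟨a, b, c, hab, hac, hbc, h, h0, h1⟩ | ⟨a, b, r, hab, h, h0⟩
    · refine ncard_three (a := (x, .inl a)) (b := (x, .inl b)) (c := (x, .inl c))
        (by simpa using hab) (by simpa using hac) (by simpa using hbc) fun w => ?_
      rw [adj_inl]
      constructor
      · rintro (⟨j, hj, rfl⟩ | ⟨b', hb', _⟩)
        · rcases (h j).1 hj with rfl | rfl | rfl <;> simp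
        · cases b'
          · exact absurd hb' h0
          · exact absurd hb' h1
      · rintro (rfl | rfl | rfl)
        · exact Or.inl ⟨a, (h a).2 (by simp), rfl⟩
        · exact Or.inl ⟨b, (h b).2 (by simp), rfl⟩
        · exact Or.inl ⟨c, (h c).2 (by simp), rfl⟩
    · refine ncard_three (a := (x, .inl a)) (b := (x, .inl b)) (c := (x, .inr (r, 0)))
        (by simpa using hab) (by simp) (by simp) fun w => ?_
      rw [adj_inl]
      constructor
      · rintro (⟨j, hj, rfl⟩ | ⟨b', hb', rfl⟩)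
        · rcases (h j).1 hj with rfl | rfl <;> simp
        · rw [(h0 b').1 hb']; simp
      · rintro (rfl | rfl | rfl)
        · exact Or.inl ⟨a, (h a).2 (by simp), rfl⟩
        · exact Or.inl ⟨b, (h b).2 (by simp), rfl⟩
        · exact Or.inr ⟨r, (h0 r).2 rfl, rfl⟩
  · exact ncard_three lo_ne_up lo_ne_ou (up_ne_ou hs) fun w => adj_inr

end Pool.Agent.N630.Tri
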