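import Pool.Agent.N630.Tri.Base

set_option autoImplicit false
set_option linter.unusedSectionVars false

/-! # Every automorphism preserves the type of a vertex -/

namespace Pool.Agent.N630.Tri

variable {G : Type*} [Group G] {k : ℕ} {s : Fin (k + 1) → G}

/-- depth in the head -/
def dM (i : Fin 10) : Bool := i = 0 ∨ i = 1 ∨ i = 3 ∨ i = 8

/-- the depth: the distance from the triangles -/
def D : W k → ℕ
  | .inl i => if dM i = true then 1 else 0
  | .inr p => p.2 + 2

lemma D_inl_le (i : Fin 10) : D (.inl i : W k) ≤ 1 := by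
  show (if dM i = true then 1 else 0) ≤ 1
  split_ifs <;> simp

lemma D_inr (b : Bool) (j : Fin (k + 1)) : D (.inr (b, j) : W k) = j + 2 := rfl

lemma D_lo (x : G) (b : Bool) (j : Fin (k + 1)) : D (lo x b j : G × W k).2 = j + 1 := by
  unfold lo
  by_cases h : (j : ℕ) = 0
  · rw [dif_pos h, h]
    cases b <;> rfl
  · rw [dif_neg h]
    simp only [D_inr]
    omega

lemma D_up (x : G) (b : Bool) (j : Fin (k + 1)) : (j : ℕ) + 2 ≤ D (up x b j : G × W k).2 := by
  unfold up
  by_cases h : (j : ℕ) = k
  · rw [dif_pos h]; simp [D_inr]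
  · rw [dif_neg h]; simp [D_inr]

lemma D_ou (x : G) (b : Bool) (j : Fin (k + 1)) : D (ou s x b j : G × W k).2 = j + 2 := rfl

/-- invariant predicates -/
def PInv (s : Fin (k + 1) → G) (P : G × W k → Prop) : Prop := ∀ (φ : X s ≃g X s) v, P v → P (φ v)

lemma PInv.not {P : G × W k → Prop} (h : PInv s P) : PInv s (fun v => ¬ P v) := by
  intro φ v hv hc
  have := h φ.symm _ hc
  rw [RelIso.symm_apply_apply] at this
  exact hv this

lemma PInv.and {P Q : G × W k → Prop} (h : PInv s P) (h' : PInv s Q) : PInv s (fun v => P v ∧ Q v) :=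
  fun φ v hv => ⟨h φ v hv.1, h' φ v hv.2⟩

lemma PInv.or {P Q : G × W k → Prop} (h : PInv s P) (h' : PInv s Q) : PInv s (fun v => P v ∨ Q v) :=
  fun φ v hv => hv.imp (h φ v) (h' φ v)

lemma PInv.nb {P : G × W k → Prop} (h : PInv s P) : PInv s (fun v => ∃ w, (X s).Adj v w ∧ P w) := by
  rintro φ v ⟨w, hw, hP⟩
  exact ⟨φ w, φ.map_adj_iff.2 hw, h φ w hP⟩

lemma PInv.congr {P Q : G × W k → Prop} (h : PInv s P) (hPQ : ∀ v, Q v ↔ P v) : PInv s Q :=
  fun φ v hv => (hPQ _).2 (h φ v ((hPQ v).1 hv))

/-- in a triangle -/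
def InT (s : Fin (k + 1) → G) (v : G × W k) : Prop :=
  ∃ w z, (X s).Adj v w ∧ (X s).Adj v z ∧ (X s).Adj w z

lemma inT_inv : PInv s (InT s) := by
  rintro φ v ⟨w, z, h1, h2, h3⟩
  exact ⟨φ w, φ z, φ.map_adj_iff.2 h1, φ.map_adj_iff.2 h2, φ.map_adj_iff.2 h3⟩

lemma adj_inl_inl {x : G} {i j : Fin 10} :
    (X s).Adj ((x, .inl i) : G × W k) (x, .inl j) ↔ MA i j = true := by
  rw [adj_inl]
  constructor
  · rintro (⟨j', h, h'⟩ | ⟨b, _, h⟩)
    · simp at h'; rwa [h']
    · simp at h
  · intro h
    exact Or.inl ⟨j, h, rfl⟩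

lemma not_adj_lo_up {x : G} {b : Bool} {j : Fin (k + 1)} : ¬ (X s).Adj (lo x b j) (up x b j) := by
  unfold lo up
  rw [adj_def]
  by_cases h1 : (j : ℕ) = 0 <;> by_cases h2 : (j : ℕ) = k
  · rw [dif_pos h1, dif_pos h2]
    rintro (⟨_, h⟩ | ⟨j', h, _⟩ | ⟨j', _, h, _⟩)
    · simp only [C] at h; have := h.2; revert this; cases b <;> decide
    · simp at h
    · simp at h
  · rw [dif_pos h1, dif_neg h2]
    rintro (⟨_, h⟩ | ⟨j', h, _⟩ | ⟨j', _, h, _⟩)
    · simp only [C] at h; omega
    · simp at h
    · simp at h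
  · rw [dif_neg h1, dif_pos h2]
    rintro (⟨_, h⟩ | ⟨j', h, h', _⟩ | ⟨j', h, h', _⟩)
    · simp only [C] at h
      rcases h with ⟨h, _⟩ | ⟨_, h, _⟩
      · cases b <;> simp at h
      · have := congrArg Fin.val h; simp only at this; omega
    · simp only [Sum.inr.injEq, Prod.mk.injEq] at h h'
      have h3 := congrArg Fin.val (h.2.trans h'.2.symm); simp only at h3; omega
    · simp only [Sum.inr.injEq, Prod.mk.injEq] at h h'
      have h3 := congrArg Fin.val (h'.2.trans h.2.symm); simp only at h3; omega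
  · rw [dif_neg h1, dif_neg h2]
    rintro (⟨_, h⟩ | ⟨j', h, h', _⟩ | ⟨j', h, h', _⟩)
    · simp only [C] at h
      rcases h with ⟨_, h⟩ | ⟨h, _⟩
      · omega
      · exact h rfl
    · simp only [Sum.inr.injEq, Prod.mk.injEq] at h h'
      rw [h.1] at h'; simp at h'
    · simp only [Sum.inr.injEq, Prod.mk.injEq] at h h'
      rw [h.1] at h'; simp at h'

lemma not_adj_lo_ou {x : G} {b : Bool} {j : Fin (k + 1)} : ¬ (X s).Adj (lo x b j) (ou s x b j) := by
  unfold lo ou
  rw [adj_def]
  by_cases h1 : (j : ℕ) = 0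
  · rw [dif_pos h1]
    rintro (⟨_, h⟩ | ⟨j', h, _⟩ | ⟨j', _, h, _⟩)
    · simp only [C] at h; have := h.2; revert this; cases b <;> decide
    · simp at h
    · simp at h
  · rw [dif_neg h1]
    rintro (⟨_, h⟩ | ⟨j', h, h', _⟩ | ⟨j', h, h', _⟩)
    · simp only [C] at h
      rcases h with ⟨h, _⟩ | ⟨_, h, _⟩
      · cases b <;> simp at h
      · have := congrArg Fin.val h; simp only at this; omega
    · simp only [Sum.inr.injEq, Prod.mk.injEq] at h h'
      have h3 := congrArg Fin.val (h.2.trans h'.2.symm); simp only at h3; omega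
    · simp only [Sum.inr.injEq, Prod.mk.injEq] at h h'
      have h3 := congrArg Fin.val (h'.2.trans h.2.symm); simp only at h3; omega

lemma not_adj_up_ou {x : G} {b : Bool} {j : Fin (k + 1)} : ¬ (X s).Adj (up x b j) (ou s x b j) := by
  unfold up ou
  rw [adj_def]
  by_cases h2 : (j : ℕ) = k
  · rw [dif_pos h2]
    rintro (⟨_, h⟩ | ⟨j', h, h', _⟩ | ⟨j', h, h', _⟩)
    · exact C_irrefl _ h
    · simp only [Sum.inr.injEq, Prod.mk.injEq] at h h'
      rw [h.1] at h'; simp at h'
    · simp only [Sum.inr.injEq, Prod.mk.injEq] at h h'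
      rw [h.1] at h'; simp at h'
  · rw [dif_neg h2]
    rintro (⟨_, h⟩ | ⟨j', h, h', _⟩ | ⟨j', h, h', _⟩)
    · simp only [C] at h
      rcases h with ⟨h, _⟩ | ⟨_, h, _⟩
      · cases b <;> simp at h
      · have := congrArg Fin.val h; simp only at this; omega
    · simp only [Sum.inr.injEq, Prod.mk.injEq] at h h'
      have h3 := congrArg Fin.val (h.2.trans h'.2.symm); simp only at h3; omega
    · simp only [Sum.inr.injEq, Prod.mk.injEq] at h h'
      have h3 := congrArg Fin.val (h'.2.trans h.2.symm); simp only at h3; omega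

lemma inT_iff (v : G × W k) : InT s v ↔ D v.2 = 0 := by
  obtain ⟨x, i | ⟨b, j⟩⟩ := v
  · constructor
    · rintro ⟨w, z, h1, h2, h3⟩
      rw [adj_inl] at h1 h2
      rcases h1 with ⟨j, hj, rfl⟩ | ⟨b, hb, rfl⟩ <;> rcases h2 with ⟨j', hj', rfl⟩ | ⟨b', hb', rfl⟩
      · rw [adj_inl_inl] at h3
        have key : ∀ i j j' : Fin 10, MA i j = true → MA i j' = true → MA j j' = true → dM i = false := by
          decide
        simp [D, key i j j' hj hj' h3]
      · exfalso
        rw [adj_inl] at h3
        rcases h3 with ⟨j', _, h3⟩ | ⟨b'', h3, h4⟩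
        · simp at h3
        · simp only [Prod.mk.injEq, Sum.inr.injEq, true_and, and_true] at h4
          rw [← h4, ← hb'] at h3
          rw [h3, MA_irrefl] at hj
          exact absurd hj (by simp)
      · exfalso
        have h3 := h3.symm
        rw [adj_inl] at h3
        rcases h3 with ⟨j', _, h3⟩ | ⟨b'', h3, h4⟩
        · simp at h3
        · simp only [Prod.mk.injEq, Sum.inr.injEq, true_and, and_true] at h4
          rw [← h4, ← hb] at h3
          rw [h3, MA_irrefl] at hj'
          exact absurd hj' (by simp)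
      · exfalso
        have : b = b' := by
          revert hb hb'
          cases b <;> cases b' <;> simp +contextual [en]
        rw [this] at h3
        exact (X s).loopless.irrefl _ h3
    · intro h
      have key : ∀ i : Fin 10, dM i = false → ∃ j j', MA i j = true ∧ MA i j' = true ∧ MA j j' = true := by
        decide
      have hd : dM i = false := by
        by_contra hc
        simp only [Bool.not_eq_false] at hc
        simp [D, hc] at h
      obtain ⟨j, j', h1, h2, h3⟩ := key i hd
      exact ⟨(x, .inl j), (x, .inl j'), adj_inl_inl.2 h1, adj_inl_inl.2 h2, adj_inl_inl.2 h3⟩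
  · constructor
    · rintro ⟨w, z, h1, h2, h3⟩
      exfalso
      rw [adj_inr] at h1 h2
      rcases h1 with rfl | rfl | rfl <;> rcases h2 with rfl | rfl | rfl
      · exact (X s).loopless.irrefl _ h3
      · exact not_adj_lo_up h3
      · exact not_adj_lo_ou h3
      · exact not_adj_lo_up h3.symm
      · exact (X s).loopless.irrefl _ h3
      · exact not_adj_up_ou h3
      · exact not_adj_lo_ou h3.symm
      · exact not_adj_up_ou h3.symm
      · exact (X s).loopless.irrefl _ h3
    · intro h
      simp [D_inr] at h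

lemma D_step {v w : G × W k} (h : (X s).Adj v w) : D v.2 ≤ D w.2 + 1 := by
  obtain ⟨x, i | ⟨b, j⟩⟩ := v
  · have := D_inl_le (k := k) i
    simp only at this ⊢
    omega
  · rw [adj_inr] at h
    simp only [D_inr]
    rcases h with rfl | rfl | rfl
    · rw [D_lo]
    · have := D_up (k := k) x b j; omega
    · rw [D_ou]; omega

lemma D_le_inv (n : ℕ) : PInv s (fun v => D v.2 ≤ n) := by
  induction n with
  | zero => exact inT_inv.congr fun v => by rw [inT_iff]; omega
  | succ n ih =>
    refine (ih.or ih.nb).congr fun v => ?_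
    constructor
    · intro h
      by_cases hn : D v.2 ≤ n
      · exact Or.inl hn
      · right
        obtain ⟨x, i | ⟨b, j⟩⟩ := v
        · have hle := D_inl_le (k := k) i
          have key : ∀ i : Fin 10, dM i = true → ∃ j, MA i j = true ∧ dM j = false := by decide
          have hd : dM i = true := by
            by_contra hc
            simp only [Bool.not_eq_true] at hc
            simp [D, hc] at hn
          obtain ⟨j, h1, h2⟩ := key i hd
          exact ⟨(x, .inl j), adj_inl_inl.2 h1, by simp [D, h2]⟩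
        · simp only [D_inr] at h hn
          exact ⟨lo x b j, adj_inr.2 (Or.inl rfl), by rw [D_lo]; omega⟩
    · rintro (h | ⟨w, h1, h2⟩)
      · omega
      · have := D_step h1; omega

lemma D_eq_inv (n : ℕ) : PInv s (fun v => D v.2 = n) := by
  rcases n with _ | n
  · exact (D_le_inv 0).congr fun v => by omega
  · exact ((D_le_inv (n + 1)).and (D_le_inv n).not).congr fun v => by omega

/-- invariant subsets of the head -/
def HInv (s : Fin (k + 1) → G) (f : Fin 10 → Bool) : Prop :=
  PInv s (fun v => ∃ i, f i = true ∧ v.2 = .inl i)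

lemma HInv.and {f g : Fin 10 → Bool} (hf : HInv s f) (hg : HInv s g) : HInv s (fun i => f i && g i) := by
  refine (PInv.and hf hg).congr fun v => ?_
  constructor
  · rintro ⟨i, h, h'⟩
    rw [Bool.and_eq_true] at h
    exact ⟨⟨i, h.1, h'⟩, ⟨i, h.2, h'⟩⟩
  · rintro ⟨⟨i, h, h'⟩, ⟨j, h1, h1'⟩⟩
    rw [h'] at h1'
    simp only [Sum.inl.injEq] at h1'
    subst h1'
    exact ⟨i, by simp [h, h1], h'⟩

lemma HInv.diff {f g : Fin 10 → Bool} (hf : HInv s f) (hg : HInv s g) : HInv s (fun i => f i && !g i) := by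
  refine (PInv.and hf (PInv.not hg)).congr fun v => ?_
  constructor
  · rintro ⟨i, h, h'⟩
    rw [Bool.and_eq_true] at h
    refine ⟨⟨i, h.1, h'⟩, ?_⟩
    rintro ⟨j, h1, h1'⟩
    rw [h'] at h1'
    simp only [Sum.inl.injEq] at h1'
    subst h1'
    rw [h1] at h
    simp at h
  · rintro ⟨⟨i, h, h'⟩, h1⟩
    refine ⟨i, ?_, h'⟩
    have : g i = false := by
      by_contra hc
      simp only [Bool.not_eq_false] at hc
      exact h1 ⟨i, hc, h'⟩
    simp [h, this]

/-- the neighbours in the head -/
def nbM (f : Fin 10 → Bool) (i : Fin 10) : Bool := decide (∃ j, MA i j = true ∧ f j = true)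

lemma D_le_one_iff (v : G × W k) : D v.2 ≤ 1 ↔ ∃ i, v.2 = .inl i := by
  obtain ⟨x, i | ⟨b, j⟩⟩ := v
  · exact ⟨fun _ => ⟨i, rfl⟩, fun _ => D_inl_le i⟩
  · simp [D_inr]

lemma HInv.nb {f : Fin 10 → Bool} (hf : HInv s f) : HInv s (nbM f) := by
  refine ((D_le_inv 1).and (PInv.nb hf)).congr fun v => ?_
  rw [D_le_one_iff]
  constructor
  · rintro ⟨i, h, h'⟩
    refine ⟨⟨i, h'⟩, ?_⟩
    obtain ⟨x, u⟩ := v
    simp only at h'
    subst h'
    unfold nbM at h
    rw [decide_eq_true_eq] at h
    obtain ⟨j, h1, h2⟩ := h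
    exact ⟨(x, .inl j), adj_inl_inl.2 h1, j, h2, rfl⟩
  · rintro ⟨⟨i, h'⟩, w, h1, j, h2, h3⟩
    refine ⟨i, ?_, h'⟩
    obtain ⟨x, u⟩ := v
    simp only at h'
    subst h'
    unfold nbM
    rw [decide_eq_true_eq]
    rw [adj_inl] at h1
    rcases h1 with ⟨j', h1, rfl⟩ | ⟨b, _, rfl⟩
    · simp only [Sum.inl.injEq] at h3
      subst h3
      exact ⟨j', h1, h2⟩
    · simp at h3

lemma hinv_zero : HInv s (fun i => !dM i) := by
  refine (D_eq_inv 0).congr fun v => ?_
  obtain ⟨x, i | ⟨b, j⟩⟩ := v
  · simp [D]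
  · simp [D_inr]

lemma hinv_one : HInv s dM := by
  refine (D_eq_inv 1).congr fun v => ?_
  obtain ⟨x, i | ⟨b, j⟩⟩ := v
  · simp [D]
  · simp [D_inr]

/-- the ends of the head -/
def ends (i : Fin 10) : Bool := decide (i = 0 ∨ i = 1)

lemma hinv_ends : HInv s ends := by
  refine ((D_le_inv 1).and (D_eq_inv 2).nb).congr fun v => ?_
  rw [D_le_one_iff]
  constructor
  · rintro ⟨i, h, h'⟩
    refine ⟨⟨i, h'⟩, ?_⟩
    obtain ⟨x, u⟩ := v
    simp only at h'
    subst h'
    unfold ends at h
    rw [decide_eq_true_eq] at h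
    rcases h with rfl | rfl
    · exact ⟨(x, .inr (false, 0)), adj_inl.2 (Or.inr ⟨false, rfl, rfl⟩), rfl⟩
    · exact ⟨(x, .inr (true, 0)), adj_inl.2 (Or.inr ⟨true, rfl, rfl⟩), rfl⟩
  · rintro ⟨⟨i, h'⟩, w, h1, h2⟩
    refine ⟨i, ?_, h'⟩
    obtain ⟨x, u⟩ := v
    simp only at h'
    subst h'
    rw [adj_inl] at h1
    rcases h1 with ⟨j', h1, rfl⟩ | ⟨b, rfl, rfl⟩
    · have := D_inl_le (k := k) j'
      simp only at h2
      omega
    · cases b <;> decide

lemma hinv_congr {f g : Fin 10 → Bool} (hf : HInv s f) (h : ∀ i, g i = f i) : HInv s g := by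
  have : g = f := funext h
  rw [this]; exact hf

/-- the singletons of the head are invariant -/
lemma hinv_single (i : Fin 10) : HInv s (fun j => decide (j = i)) := by
  have h0 : HInv s (fun j => decide (j = 0)) :=
    hinv_congr (hinv_ends.and hinv_one.nb) (by decide)
  have h1 : HInv s (fun j => decide (j = 1)) := hinv_congr (hinv_ends.diff h0) (by decide)
  have h3 : HInv s (fun j => decide (j = 3)) := hinv_congr (hinv_one.and h0.nb) (by decide)
  have h8 : HInv s (fun j => decide (j = 8)) :=
    hinv_congr ((hinv_one.and h3.nb).diff h0) (by decide)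
  have h2 : HInv s (fun j => decide (j = 2)) := hinv_congr (hinv_zero.and h0.nb) (by decide)
  have h4 : HInv s (fun j => decide (j = 4)) := hinv_congr (h1.nb.and h2.nb) (by decide)
  have h5 : HInv s (fun j => decide (j = 5)) := hinv_congr (h1.nb.diff h4) (by decide)
  have h7 : HInv s (fun j => decide (j = 7)) := hinv_congr (hinv_zero.and h3.nb) (by decide)
  have h6 : HInv s (fun j => decide (j = 6)) := hinv_congr (h8.nb.and h2.nb) (by decide)
  have h9 : HInv s (fun j => decide (j = 9)) :=
    hinv_congr ((h8.nb.diff h6).diff h3) (by decide)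
  fin_cases i
  · exact h0
  · exact h1
  · exact h2
  · exact h3
  · exact h4
  · exact h5
  · exact h6
  · exact h7
  · exact h8
  · exact h9

lemma inv_inl (i : Fin 10) : PInv s (fun v => v.2 = .inl i) := by
  refine PInv.congr (hinv_single i) fun v => ?_
  simp

lemma inv_inr (b : Bool) (n : ℕ) : ∀ hn : n < k + 1, PInv s (fun v => v.2 = .inr (b, ⟨n, hn⟩)) := by
  induction n with
  | zero =>
    intro hn
    refine ((D_eq_inv 2).and (inv_inl (en b)).nb).congr fun v => ?_
    obtain ⟨x, i | ⟨b', j⟩⟩ := v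
    · have := D_inl_le (k := k) i
      simp only
      constructor
      · intro h; simp at h
      · rintro ⟨h, _⟩; omega
    · simp only [D_inr]
      constructor
      · intro h
        simp only [Sum.inr.injEq, Prod.mk.injEq] at h
        obtain ⟨rfl, rfl⟩ := h
        refine ⟨rfl, lo x b' _, adj_inr.2 (Or.inl rfl), ?_⟩
        simp [lo]
      · rintro ⟨h, w, h1, h2⟩
        have hj : (j : ℕ) = 0 := by omega
        rw [adj_inr] at h1
        rcases h1 with rfl | rfl | rfl
        · simp only [lo, hj, dite_true, Sum.inl.injEq] at h2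
          have : b' = b := by
            revert h2; cases b <;> cases b' <;> simp [en]
          rw [this]
          congr 2
          exact Fin.ext hj
        · unfold up at h2
          split_ifs at h2 <;> simp at h2
        · simp [ou] at h2
  | succ n ih =>
    intro hn
    refine ((D_eq_inv (n + 3)).and (ih (by omega)).nb).congr fun v => ?_
    obtain ⟨x, i | ⟨b', j⟩⟩ := v
    · have := D_inl_le (k := k) i
      simp only
      constructor
      · intro h; simp at h
      · rintro ⟨h, _⟩; omega
    · simp only [D_inr]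
      constructor
      · intro h
        simp only [Sum.inr.injEq, Prod.mk.injEq] at h
        obtain ⟨rfl, rfl⟩ := h
        refine ⟨rfl, lo x b' _, adj_inr.2 (Or.inl rfl), ?_⟩
        simp [lo]
      · rintro ⟨h, w, h1, h2⟩
        have hj : (j : ℕ) = n + 1 := by omega
        have hj0 : (j : ℕ) ≠ 0 := by omega
        rw [adj_inr] at h1
        rcases h1 with rfl | rfl | rfl
        · simp only [lo, hj0, dite_false, Sum.inr.injEq, Prod.mk.injEq] at h2
          rw [h2.1]
          congr 2
          exact Fin.ext hj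
        · exfalso
          unfold up at h2
          split_ifs at h2
          · simp only [Sum.inr.injEq, Prod.mk.injEq] at h2
            have := congrArg Fin.val h2.2
            simp only at this
            omega
          · simp only [Sum.inr.injEq, Prod.mk.injEq, Fin.mk.injEq] at h2
            omega
        · exfalso
          simp only [ou, Sum.inr.injEq, Prod.mk.injEq] at h2
          have := congrArg Fin.val h2.2
          simp only at this
          omega

/-- every automorphism preserves the type -/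
theorem type_inv (φ : X s ≃g X s) (v : G × W k) : (φ v).2 = v.2 := by
  obtain ⟨x, i | ⟨b, j⟩⟩ := v
  · exact inv_inl i φ _ rfl
  · exact inv_inr b j j.isLt φ _ rfl

end Pool.Agent.N630.Tri
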