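import Pool.Agent.N630.Tri.Inv

set_option autoImplicit false
set_option linter.unusedSectionVars false

/-! # The automorphism group -/

namespace Pool.Agent.N630.Tri

variable {G : Type*} [Group G] {k : ℕ} {s : Fin (k + 1) → G}

/-- left multiplication -/
def L (s : Fin (k + 1) → G) (g : G) : X s ≃g X s where
  toFun v := (g * v.1, v.2)
  invFun v := (g⁻¹ * v.1, v.2)
  left_inv v := by simp
  right_inv v := by simp
  map_rel_iff' := by
    intro p q
    simp only [Equiv.coe_fn_mk, adj_def, Ex, mul_right_inj, mul_assoc]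

/-- left multiplication as a homomorphism -/
def LH (s : Fin (k + 1) → G) : G →* (X s ≃g X s) where
  toFun := L s
  map_one' := by
    ext v <;> simp [L]
  map_mul' g h := by
    ext v <;> simp [L, mul_assoc]

lemma LH_apply (g : G) (v : G × W k) : LH s g v = (g * v.1, v.2) := rfl

lemma LH_injective : Function.Injective (LH s) := by
  intro g h e
  have : LH s g (1, .inl 0) = LH s h (1, .inl 0) := by rw [e]
  simpa [LH_apply] using this

/-- two adjacent vertices whose types are not the two types at the top are in the same cell, if they are not the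
ports of a generator -/
lemma same_cell {p q : G × W k} (h : (X s).Adj p q)
    (hne : ∀ j, ¬ (p.2 = .inr (false, j) ∧ q.2 = .inr (true, j)) ∧ ¬ (p.2 = .inr (true, j) ∧ q.2 = .inr (false, j))) :
    p.1 = q.1 := by
  rw [adj_def] at h
  rcases h with ⟨h, _⟩ | ⟨j, h1, h2, _⟩ | ⟨j, h1, h2, _⟩
  · exact h
  · exact absurd ⟨h1, h2⟩ (hne j).1
  · exact absurd ⟨h2, h1⟩ (hne j).2

lemma head_edge (φ : X s ≃g X s) (x : G) {i j : Fin 10} (h : MA i j = true) :
    (φ (x, .inl i)).1 = (φ (x, .inl j)).1 := by
  refine same_cell (φ.map_adj_iff.2 (adj_inl_inl.2 h)) fun j' => ?_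
  rw [type_inv, type_inv]
  simp

lemma head_all (φ : X s ≃g X s) (x : G) (i : Fin 10) : (φ (x, .inl i)).1 = (φ (x, .inl 0)).1 := by
  have h2 := head_edge φ x (i := 2) (j := 0) rfl
  have h3 := head_edge φ x (i := 3) (j := 0) rfl
  have h4 := (head_edge φ x (i := 4) (j := 2) rfl).trans h2
  have h6 := (head_edge φ x (i := 6) (j := 2) rfl).trans h2
  have h7 := (head_edge φ x (i := 7) (j := 3) rfl).trans h3
  have h8 := (head_edge φ x (i := 8) (j := 3) rfl).trans h3
  have h1 := (head_edge φ x (i := 1) (j := 4) rfl).trans h4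
  have h5 := (head_edge φ x (i := 5) (j := 7) rfl).trans h7
  have h9 := (head_edge φ x (i := 9) (j := 8) rfl).trans h8
  fin_cases i
  · rfl
  · exact h1
  · exact h2
  · exact h3
  · exact h4
  · exact h5
  · exact h6
  · exact h7
  · exact h8
  · exact h9

lemma rail_all (φ : X s ≃g X s) (x : G) (b : Bool) (n : ℕ) : ∀ hn : n < k + 1,
    (φ (x, .inr (b, ⟨n, hn⟩))).1 = (φ (x, .inl 0)).1 := by
  induction n with
  | zero =>
    intro hn
    have h : (X s).Adj (x, .inr (b, ⟨0, hn⟩)) (x, .inl (en b)) := by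
      rw [adj_inr]; left; simp [lo]
    rw [same_cell (φ.map_adj_iff.2 h) fun j' => by rw [type_inv, type_inv]; simp]
    exact head_all φ x _
  | succ n ih =>
    intro hn
    have h : (X s).Adj (x, .inr (b, ⟨n + 1, hn⟩)) (x, .inr (b, ⟨n, by omega⟩)) := by
      rw [adj_inr]; left; simp [lo]
    rw [same_cell (φ.map_adj_iff.2 h) fun j' => by
      rw [type_inv, type_inv]
      cases b <;> simp]
    exact ih _

lemma cell_all (φ : X s ≃g X s) (x : G) (u : W k) : φ (x, u) = ((φ (x, .inl 0)).1, u) := by
  refine Prod.ext ?_ (type_inv φ _)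
  rcases u with i | ⟨b, j⟩
  · exact head_all φ x i
  · exact rail_all φ x b j j.isLt

lemma LH_surjective (hs : ∀ j, s j ≠ 1) (hg : Subgroup.closure (Set.range s) = ⊤) :
    Function.Surjective (LH s) := by
  intro φ
  set π : G → G := fun x => (φ (x, .inl 0)).1 with hπ
  have hφ : ∀ x u, φ (x, u) = (π x, u) := fun x u => cell_all φ x u
  have hinj : Function.Injective π := by
    intro x y h
    have h1 : φ (x, .inl 0) = φ (y, .inl 0) := by rw [hφ, hφ, h]
    have := φ.injective h1
    simpa using this
  have hstep : ∀ x j, π (x * s j) = π x * s j := by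
    intro x j
    have h : (X s).Adj (x, .inr (false, j)) (x * s j, .inr (true, j)) :=
      Or.inr (Or.inl ⟨j, rfl, rfl, rfl⟩)
    have h' := φ.map_adj_iff.2 h
    rw [hφ, hφ, adj_def] at h'
    rcases h' with ⟨h1, _⟩ | ⟨j', h1, _, h3⟩ | ⟨j', h1, _⟩
    · exfalso
      have := hinj h1
      exact hs j (by simpa using this)
    · simp only [Sum.inr.injEq, Prod.mk.injEq, true_and] at h1
      rw [← h1] at h3
      exact h3
    · simp at h1
  have hall : ∀ g : G, ∀ x, π (x * g) = π x * g := by
    intro g
    have hgm : g ∈ Subgroup.closure (Set.range s) := by rw [hg]; trivial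
    induction hgm using Subgroup.closure_induction with
    | mem g hg =>
      obtain ⟨j, rfl⟩ := hg
      exact fun x => hstep x j
    | one => intro x; simp
    | mul g h _ _ ihg ihh => intro x; rw [← mul_assoc, ihh, ihg, mul_assoc]
    | inv g _ ih =>
      intro x
      have := ih (x * g⁻¹)
      rw [inv_mul_cancel_right] at this
      rw [this, mul_inv_cancel_right]
  refine ⟨π 1, ?_⟩
  ext v
  · obtain ⟨x, u⟩ := v
    rw [hφ, LH_apply]
    have := hall x 1
    rw [one_mul] at this
    exact this.symm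
  · obtain ⟨x, u⟩ := v
    rw [hφ, LH_apply]

/-- the automorphism group -/
theorem aut (hs : ∀ j, s j ≠ 1) (hg : Subgroup.closure (Set.range s) = ⊤) :
    Nonempty ((X s ≃g X s) ≃* G) :=
  ⟨(MulEquiv.ofBijective (LH s) ⟨LH_injective, LH_surjective hs hg⟩).symm⟩

/-- generators -/
lemma exists_gens (G : Type*) [Group G] [Finite G] (h : 1 ≤ Group.rank G) :
    ∃ (k : ℕ) (s : Fin (k + 1) → G), k + 1 = Group.rank G ∧ (∀ j, s j ≠ 1) ∧
      Subgroup.closure (Set.range s) = ⊤ := by
  classical
  obtain ⟨S, h1, h2⟩ := Group.rank_spec G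
  obtain ⟨k, hk⟩ : ∃ k, Group.rank G = k + 1 := ⟨Group.rank G - 1, by omega⟩
  have hcard : S.card = k + 1 := by rw [h1, hk]
  refine ⟨k, fun j => (S.equivFin.symm (Fin.cast hcard.symm j) : G), hk.symm, ?_, ?_⟩
  · intro j hj
    have hmem : (1 : G) ∈ S := by rw [← hj]; exact (S.equivFin.symm (Fin.cast hcard.symm j)).2
    have h3 : Subgroup.closure ((S.erase 1 : Finset G) : Set G) = ⊤ := by
      rw [eq_top_iff, ← h2, Subgroup.closure_le]
      intro g hg
      by_cases hg1 : g = 1
      · rw [hg1]; exact Subgroup.one_mem _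
      · exact Subgroup.subset_closure (by simp [hg1]; exact hg)
    have h4 := Group.rank_le h3
    rw [Finset.card_erase_of_mem hmem, h1] at h4
    omega
  · have : Set.range (fun j => (S.equivFin.symm (Fin.cast hcard.symm j) : G)) = (S : Set G) := by
      ext g
      constructor
      · rintro ⟨j, rfl⟩
        exact (S.equivFin.symm (Fin.cast hcard.symm j)).2
      · intro hg
        refine ⟨Fin.cast hcard (S.equivFin ⟨g, hg⟩), ?_⟩
        simp
    rw [this, h2]

end Pool.Agent.N630.Tri
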